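import Mathlib

/-!
# The Poisson law from factorial moments
-/

set_option autoImplicit false

namespace Pool.Agent.Helper478.Poisson

open Finset Filter Topology

/-- inclusion and exclusion, truncated -/
lemma bonf (X j K : ℕ) : |(if X = j then (1 : ℝ) else 0) -
    ∑ i ∈ range (K + 1), (-1 : ℝ) ^ i * ((j + i).choose j * X.choose (j + i))| ≤
      (j + K + 1).choose j * X.choose (j + K + 1) := by
  have hid : ∀ i : ℕ, (((j + i).choose j : ℕ) : ℝ) * ((X.choose (j + i) : ℕ) : ℝ) =
      ((X.choose j : ℕ) : ℝ) * (((X - j).choose i : ℕ) : ℝ) := by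
    intro i
    have h := Nat.choose_mul (n := X) (k := j + i) (s := j) (Nat.le_add_right j i)
    rw [Nat.add_sub_cancel_left] at h
    have h2 : (j + i).choose j * X.choose (j + i) = X.choose j * (X - j).choose i := by
      rw [← h, mul_comm]
    exact_mod_cast h2
  have e1 : ∀ i ∈ range (K + 1), (-1 : ℝ) ^ i * ((j + i).choose j * X.choose (j + i)) =
      X.choose j * ((-1 : ℝ) ^ i * (X - j).choose i) := by
    intro i _
    rw [hid i]; ring
  rw [sum_congr rfl e1, ← mul_sum, show j + K + 1 = j + (K + 1) by ring, hid (K + 1)]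
  rcases lt_trichotomy X j with h | h | h
  · rw [if_neg (by omega), Nat.choose_eq_zero_of_lt h]
    simp
  · subst h
    rw [if_pos rfl, Nat.sub_self, Nat.choose_self]
    have e2 : ∑ i ∈ range (K + 1), (-1 : ℝ) ^ i * ((0 : ℕ).choose i : ℕ) = 1 := by
      rw [sum_range_succ']
      simp
    rw [e2]
    simp
  · rw [if_neg (by omega)]
    obtain ⟨n, hn⟩ : ∃ n, X - j = n + 1 := ⟨X - j - 1, by omega⟩
    rw [hn]
    have e2 : ∑ i ∈ range (K + 1), (-1 : ℝ) ^ i * ((n + 1).choose i : ℕ) = (-1) ^ K * (n.choose K : ℕ) := by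
      have := Int.alternating_sum_range_choose_eq_choose (n := n) (m := K)
      exact_mod_cast this
    rw [e2, zero_sub, abs_neg, abs_mul, abs_mul, abs_pow, abs_neg, abs_one, one_pow, one_mul,
      Nat.abs_cast, Nat.abs_cast]
    apply mul_le_mul_of_nonneg_left _ (Nat.cast_nonneg _)
    have : n.choose K ≤ (n + 1).choose (K + 1) := by
      rw [Nat.choose_succ_succ]; omega
    exact_mod_cast this

/-- **Poisson convergence from the factorial moments** -/
theorem pois_of_moments (S : ℕ → Finset ℕ) (X : ℕ → ℕ → ℕ) (lam : ℝ)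
    (hM : ∀ k : ℕ, Tendsto (fun N => (∑ s ∈ S N, ((X N s).choose k : ℝ)) / (S N).card) atTop
      (𝓝 (lam ^ k / k.factorial))) (j : ℕ) :
    Tendsto (fun N => (((S N).filter fun s => X N s = j).card : ℝ) / (S N).card) atTop
      (𝓝 (Real.exp (-lam) * lam ^ j / j.factorial)) := by
  -- the truncated sums
  have hj0 : (0 : ℝ) < j.factorial := by exact_mod_cast Nat.factorial_pos j
  have hch : ∀ i : ℕ, ((j + i).choose j : ℝ) * (lam ^ (j + i) / (j + i).factorial) =
      lam ^ j / j.factorial * (lam ^ i / i.factorial) := by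
    intro i
    have h := Nat.add_choose_mul_factorial_mul_factorial i j
    rw [add_comm i j] at h
    have hi0 : (0 : ℝ) < i.factorial := by exact_mod_cast Nat.factorial_pos i
    have hji0 : (0 : ℝ) < (j + i).factorial := by exact_mod_cast Nat.factorial_pos (j + i)
    have h' : ((j + i).choose j : ℝ) * i.factorial * j.factorial = (j + i).factorial := by
      exact_mod_cast h
    rw [← h', pow_add]
    have hc0 : ((j + i).choose j : ℝ) ≠ 0 := by
      have : 0 < (j + i).choose j := Nat.choose_pos (Nat.le_add_right j i)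
      exact_mod_cast this.ne'
    field_simp
  have hexp : Tendsto (fun K : ℕ => ∑ i ∈ range (K + 1), (-lam) ^ i / i.factorial) atTop
      (𝓝 (Real.exp (-lam))) := by
    have h1 := NormedSpace.expSeries_div_hasSum_exp (𝔸 := ℝ) (-lam)
    have h2 := h1.tendsto_sum_nat
    rw [← Real.exp_eq_exp_ℝ] at h2
    exact h2.comp (tendsto_add_atTop_nat 1)
  have htail : Tendsto (fun K : ℕ => |lam| ^ (K + 1) / (K + 1).factorial) atTop (𝓝 0) := by
    have h1 := FloorSemiring.tendsto_pow_div_factorial_atTop |lam|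
    exact h1.comp (tendsto_add_atTop_nat 1)
  rw [Metric.tendsto_atTop]
  intro ε hε
  obtain ⟨c, hc⟩ : ∃ c : ℝ, c = |lam| ^ j / j.factorial + 1 := ⟨_, rfl⟩
  have hc0 : 0 < c := by rw [hc]; positivity
  have hc1 : |lam ^ j / j.factorial| ≤ c := by
    rw [abs_div, abs_pow, abs_of_pos hj0, hc]; linarith
  obtain ⟨K, hK1, hK2⟩ : ∃ K : ℕ, |∑ i ∈ range (K + 1), (-lam) ^ i / i.factorial - Real.exp (-lam)| <
      ε / (4 * c) ∧ |lam| ^ (K + 1) / (K + 1).factorial < ε / (4 * c) := by
    have h1 := (Metric.tendsto_atTop.1 hexp) (ε / (4 * c)) (by positivity)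
    have h2 := (Metric.tendsto_atTop.1 htail) (ε / (4 * c)) (by positivity)
    obtain ⟨K1, hK1⟩ := h1
    obtain ⟨K2, hK2⟩ := h2
    refine ⟨max K1 K2, ?_, ?_⟩
    · have := hK1 (max K1 K2) (le_max_left _ _)
      rwa [Real.dist_eq] at this
    · have := hK2 (max K1 K2) (le_max_right _ _)
      rw [Real.dist_eq, sub_zero, abs_of_nonneg (by positivity)] at this
      exact this
  -- the limits of the truncated sums
  have hT : Tendsto (fun N => ∑ i ∈ range (K + 1), (-1 : ℝ) ^ i * ((j + i).choose j *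
      ((∑ s ∈ S N, ((X N s).choose (j + i) : ℝ)) / (S N).card))) atTop
      (𝓝 (∑ i ∈ range (K + 1), (-1 : ℝ) ^ i * ((j + i).choose j *
        (lam ^ (j + i) / (j + i).factorial)))) :=
    tendsto_finsetSum _ fun i _ => ((hM (j + i)).const_mul _).const_mul _
  have hT' : ∑ i ∈ range (K + 1), (-1 : ℝ) ^ i * ((j + i).choose j *
        (lam ^ (j + i) / (j + i).factorial)) =
      lam ^ j / j.factorial * ∑ i ∈ range (K + 1), (-lam) ^ i / i.factorial := by
    rw [mul_sum]
    refine sum_congr rfl fun i _ => ?_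
    rw [hch i, neg_pow lam i]; ring
  rw [hT'] at hT
  have hR : Tendsto (fun N => ((j + K + 1).choose j : ℝ) *
      ((∑ s ∈ S N, ((X N s).choose (j + K + 1) : ℝ)) / (S N).card)) atTop
      (𝓝 (((j + K + 1).choose j : ℝ) * (lam ^ (j + K + 1) / (j + K + 1).factorial))) :=
    (hM (j + K + 1)).const_mul _
  have hR' : ((j + K + 1).choose j : ℝ) * (lam ^ (j + K + 1) / (j + K + 1).factorial) =
      lam ^ j / j.factorial * (lam ^ (K + 1) / (K + 1).factorial) := hch (K + 1)
  rw [hR'] at hR
  obtain ⟨N1, hN1⟩ := (Metric.tendsto_atTop.1 hT) (ε / 4) (by positivity)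
  obtain ⟨N2, hN2⟩ := (Metric.tendsto_atTop.1 hR) (ε / 4) (by positivity)
  refine ⟨max N1 N2, fun N hN => ?_⟩
  have a1 := hN1 N ((le_max_left _ _).trans hN)
  have a2 := hN2 N ((le_max_right _ _).trans hN)
  rw [Real.dist_eq] at a1 a2 ⊢
  -- the truncation for `N`
  have a3 : |(((S N).filter fun s => X N s = j).card : ℝ) / (S N).card -
      ∑ i ∈ range (K + 1), (-1 : ℝ) ^ i * ((j + i).choose j *
      ((∑ s ∈ S N, ((X N s).choose (j + i) : ℝ)) / (S N).card))| ≤
      ((j + K + 1).choose j : ℝ) * ((∑ s ∈ S N, ((X N s).choose (j + K + 1) : ℝ)) / (S N).card) := by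
    have b1 : (((S N).filter fun s => X N s = j).card : ℝ) = ∑ s ∈ S N, if X N s = j then (1 : ℝ) else 0 := by
      rw [Finset.card_filter]; push_cast; rfl
    have b2 : ∑ i ∈ range (K + 1), (-1 : ℝ) ^ i * ((j + i).choose j *
      ((∑ s ∈ S N, ((X N s).choose (j + i) : ℝ)) / (S N).card)) =
      (∑ s ∈ S N, ∑ i ∈ range (K + 1), (-1 : ℝ) ^ i * ((j + i).choose j * (X N s).choose (j + i))) /
        (S N).card := by
      rw [sum_comm, sum_div]
      refine sum_congr rfl fun i _ => ?_
      rw [← mul_sum, ← mul_sum]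
      ring
    rw [b1, b2, ← sub_div, ← sum_sub_distrib, abs_div, Nat.abs_cast, mul_div_assoc']
    apply div_le_div_of_nonneg_right _ (Nat.cast_nonneg _)
    refine (abs_sum_le_sum_abs _ _).trans ?_
    rw [mul_sum]
    exact sum_le_sum fun s _ => bonf (X N s) j K
  have a4 : |lam ^ j / j.factorial * ∑ i ∈ range (K + 1), (-lam) ^ i / i.factorial -
      Real.exp (-lam) * lam ^ j / j.factorial| < ε / 4 := by
    have b1 : lam ^ j / j.factorial * ∑ i ∈ range (K + 1), (-lam) ^ i / i.factorial -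
      Real.exp (-lam) * lam ^ j / j.factorial = lam ^ j / j.factorial *
        (∑ i ∈ range (K + 1), (-lam) ^ i / i.factorial - Real.exp (-lam)) := by ring
    rw [b1, abs_mul]
    calc |lam ^ j / j.factorial| * |∑ i ∈ range (K + 1), (-lam) ^ i / i.factorial - Real.exp (-lam)| ≤
          c * |∑ i ∈ range (K + 1), (-lam) ^ i / i.factorial - Real.exp (-lam)| :=
          mul_le_mul_of_nonneg_right hc1 (abs_nonneg _)
      _ < c * (ε / (4 * c)) := mul_lt_mul_of_pos_left hK1 hc0
      _ = ε / 4 := by field_simp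
  have a5 : lam ^ j / j.factorial * (lam ^ (K + 1) / (K + 1).factorial) ≤ ε / 4 := by
    refine (le_abs_self _).trans ?_
    rw [abs_mul]
    have b1 : |lam ^ (K + 1) / (K + 1).factorial| = |lam| ^ (K + 1) / (K + 1).factorial := by
      rw [abs_div, abs_pow, Nat.abs_cast]
    rw [b1]
    calc |lam ^ j / j.factorial| * (|lam| ^ (K + 1) / (K + 1).factorial) ≤
          c * (ε / (4 * c)) := mul_le_mul hc1 hK2.le (by positivity) hc0.le
      _ = ε / 4 := by field_simp
  have a2' := (abs_lt.1 a2).2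
  rw [abs_le] at a3
  rw [abs_lt] at a1 a4 ⊢
  constructor <;> linarith [a1.1, a1.2, a3.1, a3.2, a4.1, a4.2]

end Pool.Agent.Helper478.Poisson
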