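import Pool.Agent.Helper478_Poisson.Word
import Pool.Agent.Helper478_Kwise.F

/-!
# The Poisson law for rare words in the digits of `x m ^ θ`
-/

set_option autoImplicit false

namespace Pool.Agent.Helper478.Poisson

open Finset Filter Topology
open Pool.Agent.Helper478.Kwise (dg dg_nonneg dg_lt kwi)
open Pool.Agent.Helper478.Surds (ev_pow)

lemma word_lim (b : ℕ) (hb : 2 ≤ b) (n l : ℕ → ℕ) (hn : Tendsto n atTop atTop) (lam : ℝ) (hlam0 : 0 < lam)
    (hlam : Tendsto (fun N => (n N : ℝ) / (b : ℝ) ^ l N) atTop (𝓝 lam)) :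
    Tendsto l atTop atTop ∧ Tendsto (fun N => (l N : ℝ) / n N) atTop (𝓝 0) ∧
      ∀ᶠ N in atTop, (l N : ℝ) ≤ 2 * Real.log (n N) + 2 * abs (Real.log lam) + 4 := by
  have hb0 : (0 : ℝ) < b := by exact_mod_cast (by omega : 0 < b)
  have hb2 : (2 : ℝ) ≤ b := by exact_mod_cast hb
  have hn' : Tendsto (fun N => (n N : ℝ)) atTop atTop := tendsto_natCast_atTop_atTop.comp hn
  have hup : ∀ᶠ N in atTop, (n N : ℝ) / (b : ℝ) ^ l N < 2 * lam :=
    hlam.eventually_lt_const (by linarith)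
  have hlow : ∀ᶠ N in atTop, lam / 2 < (n N : ℝ) / (b : ℝ) ^ l N :=
    hlam.eventually_const_lt (by linarith)
  have hbl : Tendsto (fun N => (b : ℝ) ^ l N) atTop atTop := by
    have h1 : Tendsto (fun N => (n N : ℝ) / (2 * lam)) atTop atTop := hn'.atTop_div_const (by positivity)
    refine tendsto_atTop_mono' _ ?_ h1
    filter_upwards [hup] with N hN
    rw [div_lt_iff₀ (by positivity)] at hN
    rw [div_le_iff₀ (by positivity)]
    linarith
  have hl : Tendsto l atTop atTop := by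
    rw [tendsto_atTop]
    intro k
    filter_upwards [hbl.eventually_gt_atTop ((b : ℝ) ^ k)] with N hN
    by_contra hcon
    push Not at hcon
    have : (b : ℝ) ^ l N ≤ (b : ℝ) ^ k := pow_le_pow_right₀ (by linarith) hcon.le
    linarith
  refine ⟨hl, ?_, ?_⟩
  · have h1 : Tendsto (fun N => 2 / lam * ((l N : ℝ) / (b : ℝ) ^ l N)) atTop (𝓝 0) := by
      have h2 : Tendsto (fun k : ℕ => (k : ℝ) / (b : ℝ) ^ k) atTop (𝓝 0) := by
        have := tendsto_pow_const_div_const_pow_of_one_lt 1 (show (1 : ℝ) < b by linarith)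
        simpa using this
      have := (h2.comp hl).const_mul (2 / lam)
      simpa using this
    refine squeeze_zero' (Eventually.of_forall fun N => by positivity) ?_ h1
    filter_upwards [hlow, hn.eventually_ge_atTop 1] with N hN hN1
    have hbl0 : (0 : ℝ) < (b : ℝ) ^ l N := by positivity
    have hn0 : (0 : ℝ) < n N := by exact_mod_cast (by omega : 0 < n N)
    rw [lt_div_iff₀ hbl0] at hN
    rw [div_le_iff₀ hn0]
    have e1 : (l N : ℝ) = 2 / lam * ((l N : ℝ) / (b : ℝ) ^ l N) * (lam / 2 * (b : ℝ) ^ l N) := by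
      field_simp
    calc (l N : ℝ) = 2 / lam * ((l N : ℝ) / (b : ℝ) ^ l N) * (lam / 2 * (b : ℝ) ^ l N) := e1
      _ ≤ 2 / lam * ((l N : ℝ) / (b : ℝ) ^ l N) * (n N) := by gcongr
  · filter_upwards [hlow, hn.eventually_ge_atTop 1] with N hN hN1
    have hbl0 : (0 : ℝ) < (b : ℝ) ^ l N := by positivity
    have hn0 : (0 : ℝ) < n N := by exact_mod_cast (by omega : 0 < n N)
    rw [lt_div_iff₀ hbl0] at hN
    have h1 := Real.log_le_log (by positivity) hN.le
    rw [Real.log_mul (by positivity) (by positivity), Real.log_pow, Real.log_div (by positivity) (by norm_num)]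
      at h1
    have h2 : Real.log 2 ≤ Real.log b := Real.log_le_log (by norm_num) hb2
    have h3 : (1 : ℝ) / 2 ≤ Real.log 2 := by have := Real.log_two_gt_d9; linarith
    have h4 : Real.log 2 ≤ 1 := by have := Real.log_two_lt_d9; linarith
    have h5 : (l N : ℝ) * (1 / 2) ≤ l N * Real.log b := by
      apply mul_le_mul_of_nonneg_left _ (Nat.cast_nonneg _)
      linarith
    have h6 := neg_abs_le (Real.log lam)
    linarith

open Classical in
/-- **The Poisson law for rare words without self-overlap** -/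
theorem pois : ∃ γ : ℝ, 0 < γ ∧ ∀ θ : ℝ, -1 ≤ θ → θ < 1 → θ ≠ 0 → ∀ x : ℝ, x ≠ 0 → ∀ δ : ℝ, 0 < δ →
    ∀ b : ℕ, 2 ≤ b → ∀ (u n l : ℕ → ℕ) (w : ℕ → ℕ → ℕ),
    (∀ᶠ N : ℕ in atTop, (N : ℝ) ^ δ ≤ (b : ℝ) ^ (u N) * (N : ℝ) ^ θ ∧
      ((u N + n N + l N : ℕ) : ℝ) ≤ (Real.log N) ^ (1 + γ)) →
    (∀ᶠ N in atTop, ∀ t, t < l N → w N t < b) → (∀ᶠ N in atTop, NoOv (l N) (w N)) →
    Tendsto n atTop atTop → ∀ lam : ℝ, 0 < lam →
    Tendsto (fun N => (n N : ℝ) / (b : ℝ) ^ l N) atTop (𝓝 lam) → ∀ j : ℕ,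
    Tendsto (fun N : ℕ => (((Ioc N (2 * N)).filter fun m : ℕ =>
      ((Ioc (u N) (u N + n N)).filter fun p => ∀ t < l N,
        dg b (x * (m : ℝ) ^ θ) (p + t) = (w N t : ℤ)).card = j).card : ℝ) / N) atTop
      (𝓝 (Real.exp (-lam) * lam ^ j / j.factorial)) := by
  obtain ⟨γ₀, hγ0, hγ1, hkwi⟩ := kwi
  refine ⟨γ₀ / 2, by positivity, ?_⟩
  intro θ h1 h2 h3 x hx δ hδ b hb u n l w hu hw hov hn lam hlam0 hlam j
  obtain ⟨N₁, hN₁⟩ := hkwi θ h1 h2 h3 (δ / 2) (by positivity)
  obtain ⟨hl, hln, hllog⟩ := word_lim b hb n l hn lam hlam0 hlam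
  have hb1 : 1 ≤ b := by omega
  have hb0 : (0 : ℝ) < b := by exact_mod_cast hb1
  have hbR1 : (1 : ℝ) ≤ b := by exact_mod_cast hb1
  have hx0 : 0 < |x| := abs_pos.2 hx
  have hlogb : 0 ≤ Real.log b := Real.log_nonneg hbR1
  let z : ℕ → ℝ := fun N => x * (b : ℝ) ^ u N
  let X : ℕ → ℕ → ℕ → ℕ := fun N s q => (dg b (z N * ((N + s : ℕ) : ℝ) ^ θ) q).toNat
  let S : ℕ → Finset ℕ := fun N => Ioc 0 (max N 1)
  have hSc : ∀ N : ℕ, 1 ≤ N → S N = Ioc 0 N := by
    intro N hN
    simp only [S]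
    rw [max_eq_left hN]
  have hS : ∀ N, (S N).Nonempty := fun N => ⟨1, by simp only [S]; rw [mem_Ioc]; omega⟩
  let Err : ℕ → ℝ := fun N => N * Real.exp (-(Real.log N) ^ (3 / 4 : ℝ))
  have hloglim : Tendsto (fun N : ℕ => Real.log (N : ℝ)) atTop atTop :=
    Real.tendsto_log_atTop.comp tendsto_natCast_atTop_atTop
  have hXeq : ∀ N s q (v : ℕ), X N s q = v ↔ dg b (z N * ((N + s : ℕ) : ℝ) ^ θ) q = (v : ℤ) := by
    intro N s q v
    simp only [X]
    have h1 := dg_nonneg b hb1 (z N * ((N + s : ℕ) : ℝ) ^ θ) q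
    omega
  -- the pattern bound
  have hpat : ∀ k : ℕ, ∀ᶠ N in atTop, ∀ I : Finset ℕ, I ⊆ Icc 1 (n N + l N) → I.card ≤ k * l N →
      ∀ v : ℕ → ℕ, (∀ i ∈ I, v i < b) →
      |(((S N).filter fun s => ∀ i ∈ I, X N s i = v i).card : ℝ) - (S N).card / (b : ℝ) ^ I.card| ≤ Err N := by
    intro k
    have ev1 : ∀ᶠ N : ℕ in atTop, 1 ≤ Real.log (N : ℝ) := hloglim.eventually_ge_atTop 1
    have ev2 : ∀ᶠ N : ℕ in atTop, (abs (Real.log |x|)) + 1 + Real.log b ≤ (Real.log (N : ℝ)) ^ (γ₀ / 2) := by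
      exact ((tendsto_rpow_atTop (by positivity : 0 < γ₀ / 2)).comp hloglim).eventually_ge_atTop _
    have ev3 : ∀ᶠ N : ℕ in atTop, -Real.log |x| * (2 / δ) ≤ Real.log (N : ℝ) := hloglim.eventually_ge_atTop _
    have ev4 : ∀ᶠ N : ℕ in atTop, (k : ℝ) * l N ≤ (Real.log (N : ℝ)) ^ (3 / 4 : ℝ) := by
      have t1 : ∀ᶠ y : ℝ in atTop, (k : ℝ) * (2 * (2 * Real.log y) + 2 * abs (Real.log lam) + 4) ≤
          y ^ (3 / 4 : ℝ) := by
        have t2 := (isLittleO_log_rpow_atTop (show (0 : ℝ) < 3 / 4 by norm_num)).bound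
          (show (0 : ℝ) < 1 / (8 * (k + 1)) by positivity)
        have t3 : ∀ᶠ y : ℝ in atTop, 2 * ((k : ℝ) * (2 * abs (Real.log lam) + 4)) ≤ y ^ (3 / 4 : ℝ) :=
          (tendsto_rpow_atTop (by norm_num : (0 : ℝ) < 3 / 4)).eventually_ge_atTop _
        filter_upwards [t2, t3, eventually_ge_atTop 1] with y hy hy' hy1
        rw [Real.norm_of_nonneg (Real.log_nonneg hy1), Real.norm_of_nonneg (by positivity)] at hy
        have g1 : 8 * ((k : ℝ) + 1) * Real.log y ≤ y ^ (3 / 4 : ℝ) := by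
          calc 8 * ((k : ℝ) + 1) * Real.log y ≤ 8 * ((k : ℝ) + 1) * (1 / (8 * (k + 1)) * y ^ (3 / 4 : ℝ)) := by
                gcongr
            _ = y ^ (3 / 4 : ℝ) := by field_simp
        have g2 : 0 ≤ Real.log y := Real.log_nonneg hy1
        have g3 : (k : ℝ) * (2 * (2 * Real.log y) + 2 * abs (Real.log lam) + 4) =
            4 * (k : ℝ) * Real.log y + (k : ℝ) * (2 * abs (Real.log lam) + 4) := by ring
        rw [g3]
        nlinarith
      filter_upwards [hloglim.eventually t1, hllog, hu, ev1, hn.eventually_ge_atTop 1] with N a1 a2 a3 a4 a5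
      refine le_trans ?_ a1
      apply mul_le_mul_of_nonneg_left _ (Nat.cast_nonneg _)
      refine a2.trans ?_
      have hn0 : (0 : ℝ) < n N := by exact_mod_cast (by omega : 0 < n N)
      have g1 : Real.log (n N) ≤ 2 * Real.log (Real.log N) := by
        have g2 : (n N : ℝ) ≤ (Real.log N) ^ (2 : ℝ) := by
          have g3 : (n N : ℝ) ≤ ((u N + n N + l N : ℕ) : ℝ) := by
            exact_mod_cast (by omega : n N ≤ u N + n N + l N)
          refine g3.trans (a3.2.trans ?_)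
          exact Real.rpow_le_rpow_of_exponent_le a4 (by linarith)
        have g4 := Real.log_le_log hn0 g2
        rw [Real.log_rpow (by linarith)] at g4
        exact g4
      linarith
    filter_upwards [eventually_ge_atTop N₁, eventually_ge_atTop 1, ev1, ev2, ev3, ev4, hu]
      with N e1 e2 e3 e4 e5 e7 e6
    intro I hI hIk v hv
    have hN0 : (0 : ℝ) < N := by exact_mod_cast e2
    obtain ⟨y, hy⟩ : ∃ y : ℝ, y = Real.log N := ⟨_, rfl⟩
    rw [← hy] at e3 e4 e5
    have hy0 : 0 < y := by linarith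
    have hIc : (I.card : ℝ) ≤ (Real.log N) ^ (3 / 4 : ℝ) := by
      refine le_trans ?_ e7
      exact_mod_cast hIk
    rw [hSc N e2, Nat.card_Ioc, Nat.sub_zero]
    have hzs : |z N| = |x| * (b : ℝ) ^ u N := by
      simp only [z]
      rw [abs_mul, abs_of_pos (by positivity : (0 : ℝ) < (b : ℝ) ^ u N)]
    have hk := hN₁ N e1 N le_rfl (z N) b (n N + l N) hb ?_ ?_ I hI hIc v hv
    · have e8 : (Ioc 0 N).filter (fun s => ∀ i ∈ I, X N s i = v i) =
          (Ioc 0 N).filter fun s : ℕ => ∀ i ∈ I, dg b (z N * ((N + s : ℕ) : ℝ) ^ θ) i = v i := by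
        refine filter_congr fun s _ => ?_
        exact forall₂_congr fun i _ => hXeq N s i (v i)
      rw [e8]
      exact hk
    · have f1 := e6.1
      rw [hzs]
      have g1 : (N : ℝ) ^ δ = (N : ℝ) ^ (δ / 2) * (N : ℝ) ^ (δ / 2) := by
        rw [← Real.rpow_add hN0]; congr 1; ring
      have g2 : 1 / |x| ≤ (N : ℝ) ^ (δ / 2) := by
        rw [Real.rpow_def_of_pos hN0, ← hy, ← Real.exp_log (show 0 < 1 / |x| by positivity)]
        apply Real.exp_le_exp.2
        rw [one_div, Real.log_inv]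
        have g3 := mul_le_mul_of_nonneg_right e5 (by positivity : 0 ≤ δ / 2)
        have g4 : -Real.log |x| * (2 / δ) * (δ / 2) = -Real.log |x| := by field_simp
        rw [g4] at g3
        exact g3
      have g5 : 0 < (N : ℝ) ^ (δ / 2) := Real.rpow_pos_of_pos hN0 _
      rw [g1] at f1
      have g6 : (N : ℝ) ^ (δ / 2) * (1 / |x|) ≤ (b : ℝ) ^ (u N) * (N : ℝ) ^ θ :=
        (mul_le_mul_of_nonneg_left g2 g5.le).trans f1
      calc (N : ℝ) ^ (δ / 2) = (N : ℝ) ^ (δ / 2) * (1 / |x|) * |x| := by field_simp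
        _ ≤ (b : ℝ) ^ (u N) * (N : ℝ) ^ θ * |x| := by gcongr
        _ = _ := by ring
    · rw [hzs, ← hy]
      have f1 : |x| * (b : ℝ) ^ u N * (N : ℝ) ^ θ * (b : ℝ) ^ (n N + l N) =
          |x| * (N : ℝ) ^ θ * (b : ℝ) ^ (u N + n N + l N) := by
        rw [add_assoc, pow_add (b : ℝ) (u N)]; ring
      rw [f1]
      have f3 : (b : ℝ) ^ (u N + n N + l N) ≤ Real.exp (y ^ (1 + γ₀ / 2) * Real.log b) := by
        have g3 : (b : ℝ) ^ (u N + n N + l N) = Real.exp (((u N + n N + l N : ℕ) : ℝ) * Real.log b) := by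
          rw [Real.exp_nat_mul, Real.exp_log hb0]
        rw [g3]
        apply Real.exp_le_exp.2
        have g4 := e6.2
        rw [← hy] at g4
        exact mul_le_mul_of_nonneg_right g4 hlogb
      have f4 : (N : ℝ) ^ θ ≤ Real.exp y := by
        rw [Real.rpow_def_of_pos hN0, ← hy]
        apply Real.exp_le_exp.2
        nlinarith
      have f5 : |x| ≤ Real.exp (abs (Real.log |x|)) := by
        conv_lhs => rw [← Real.exp_log hx0]
        exact Real.exp_le_exp.2 (le_abs_self _)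
      calc |x| * (N : ℝ) ^ θ * (b : ℝ) ^ (u N + n N + l N) ≤
            Real.exp (abs (Real.log |x|)) * Real.exp y * Real.exp (y ^ (1 + γ₀ / 2) * Real.log b) := by gcongr
        _ = Real.exp ((abs (Real.log |x|)) + y + y ^ (1 + γ₀ / 2) * Real.log b) := by
            rw [Real.exp_add, Real.exp_add]
        _ ≤ Real.exp (y ^ (1 + γ₀)) := by
            apply Real.exp_le_exp.2
            have g1 : 1 ≤ y ^ (1 + γ₀ / 2) := Real.one_le_rpow e3 (by linarith)
            have g2 : y ≤ y ^ (1 + γ₀ / 2) := by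
              calc y = y ^ (1 : ℝ) := (Real.rpow_one y).symm
                _ ≤ _ := Real.rpow_le_rpow_of_exponent_le e3 (by linarith)
            have g3 : y ^ (1 + γ₀) = y ^ (γ₀ / 2) * y ^ (1 + γ₀ / 2) := by
              rw [← Real.rpow_add hy0]; congr 1; ring
            rw [g3]
            have g4 : ((abs (Real.log |x|)) + 1 + Real.log b) * y ^ (1 + γ₀ / 2) ≤ y ^ (γ₀ / 2) * y ^ (1 + γ₀ / 2) :=
              mul_le_mul_of_nonneg_right e4 (by positivity)
            have g5 : (abs (Real.log |x|)) ≤ (abs (Real.log |x|)) * y ^ (1 + γ₀ / 2) :=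
              le_mul_of_one_le_right (abs_nonneg _) g1
            nlinarith
  -- the error
  have hErr : ∀ k : ℕ, Tendsto (fun N => (n N : ℝ) ^ k * Err N / (S N).card) atTop (𝓝 0) := by
    intro k
    have ev1 : ∀ᶠ y : ℝ in atTop, 2 * (k : ℝ) * Real.log y ≤ y ^ (3 / 4 : ℝ) / 2 := by
      have t2 := (isLittleO_log_rpow_atTop (show (0 : ℝ) < 3 / 4 by norm_num)).bound
        (show (0 : ℝ) < 1 / (4 * (k + 1)) by positivity)
      filter_upwards [t2, eventually_ge_atTop 1] with y hy hy1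
      rw [Real.norm_of_nonneg (Real.log_nonneg hy1), Real.norm_of_nonneg (by positivity)] at hy
      have g1 : 4 * ((k : ℝ) + 1) * Real.log y ≤ y ^ (3 / 4 : ℝ) := by
        calc 4 * ((k : ℝ) + 1) * Real.log y ≤ 4 * ((k : ℝ) + 1) * (1 / (4 * (k + 1)) * y ^ (3 / 4 : ℝ)) := by
              gcongr
          _ = y ^ (3 / 4 : ℝ) := by field_simp
      have g2 : 0 ≤ Real.log y := Real.log_nonneg hy1
      nlinarith
    have hup : Tendsto (fun N : ℕ => Real.exp (-((Real.log (N : ℝ)) ^ (3 / 4 : ℝ) / 2))) atTop (𝓝 0) := by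
      have e1 : Tendsto (fun N : ℕ => (Real.log (N : ℝ)) ^ (3 / 4 : ℝ) / 2) atTop atTop :=
        ((tendsto_rpow_atTop (by norm_num : (0 : ℝ) < 3 / 4)).comp hloglim).atTop_div_const (by norm_num)
      exact Real.tendsto_exp_neg_atTop_nhds_zero.comp e1
    refine squeeze_zero' (Eventually.of_forall fun N => ?_) ?_ hup
    · simp only [Err]; positivity
    · filter_upwards [hloglim.eventually ev1, hloglim.eventually_ge_atTop 1, eventually_ge_atTop 1, hu]
        with N e1 e3 e4 e6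
      have hN0 : (0 : ℝ) < N := by exact_mod_cast e4
      rw [hSc N e4, Nat.card_Ioc, Nat.sub_zero]
      obtain ⟨y, hy⟩ : ∃ y : ℝ, y = Real.log N := ⟨_, rfl⟩
      simp only [Err]
      rw [← hy] at e1 e3 ⊢
      have hy0 : 0 < y := by linarith
      have g2 : (n N : ℝ) ≤ y ^ (2 : ℝ) := by
        have g3 : (n N : ℝ) ≤ ((u N + n N + l N : ℕ) : ℝ) := by
          exact_mod_cast (by omega : n N ≤ u N + n N + l N)
        have g4 := e6.2
        rw [← hy] at g4
        refine g3.trans (g4.trans ?_)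
        exact Real.rpow_le_rpow_of_exponent_le e3 (by linarith)
      have g3 : y ^ (2 : ℝ) = Real.exp (2 * Real.log y) := by
        rw [Real.rpow_def_of_pos hy0, mul_comm]
      have g4 : (n N : ℝ) ^ k ≤ Real.exp (2 * k * Real.log y) := by
        calc (n N : ℝ) ^ k ≤ (y ^ (2 : ℝ)) ^ k := pow_le_pow_left₀ (Nat.cast_nonneg _) g2 k
          _ = Real.exp ((k : ℝ) * (2 * Real.log y)) := by rw [g3, ← Real.exp_nat_mul]
          _ = _ := by congr 1; ring
      have g5 : (n N : ℝ) ^ k * (N * Real.exp (-y ^ (3 / 4 : ℝ))) / N =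
          (n N : ℝ) ^ k * Real.exp (-y ^ (3 / 4 : ℝ)) := by field_simp
      rw [g5]
      calc (n N : ℝ) ^ k * Real.exp (-y ^ (3 / 4 : ℝ)) ≤
            Real.exp (2 * k * Real.log y) * Real.exp (-y ^ (3 / 4 : ℝ)) := by gcongr
        _ = Real.exp (2 * k * Real.log y + -y ^ (3 / 4 : ℝ)) := (Real.exp_add _ _).symm
        _ ≤ _ := Real.exp_le_exp.2 (by linarith)
  have hfin := pois_abs S hS X b hb1 n l w hw hov (hl.eventually_ge_atTop 1) Err hpat hErr hn hln lam hlam j
  refine hfin.congr' ?_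
  filter_upwards [eventually_ge_atTop 1] with N e2
  rw [hSc N e2, Nat.card_Ioc, Nat.sub_zero]
  congr 2
  have hdg : ∀ s p t, dg b (z N * ((N + s : ℕ) : ℝ) ^ θ) (p + t) = dg b (x * ((N + s : ℕ) : ℝ) ^ θ) (u N + p + t) := by
    intro s p t
    unfold dg
    congr 2
    simp only [z]
    rw [add_assoc (u N), pow_add (b : ℝ) (u N)]
    ring
  have hcnt : ∀ s, ((Icc 1 (n N)).filter fun p => At (l N) (w N) (X N s) p).card =
      ((Ioc (u N) (u N + n N)).filter fun p => ∀ t < l N,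
        dg b (x * ((N + s : ℕ) : ℝ) ^ θ) (p + t) = (w N t : ℤ)).card := by
    intro s
    refine card_bij (fun p _ => u N + p) ?_ ?_ ?_
    · intro p hp
      rw [mem_filter, mem_Icc] at hp
      rw [mem_filter, mem_Ioc]
      refine ⟨by omega, fun t ht => ?_⟩
      rw [← hdg]
      exact (hXeq N s (p + t) (w N t)).1 (hp.2 t ht)
    · intro a _ c _ h
      omega
    · intro q hq
      rw [mem_filter, mem_Ioc] at hq
      refine ⟨q - u N, ?_, by omega⟩
      rw [mem_filter, mem_Icc]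
      refine ⟨by omega, fun t ht => ?_⟩
      rw [hXeq, hdg, show u N + (q - u N) = q by omega]
      exact hq.2 t ht
  refine card_bij (fun s _ => N + s) ?_ ?_ ?_
  · intro s hs
    rw [mem_filter, mem_Ioc] at hs ⊢
    refine ⟨by omega, ?_⟩
    rw [← hcnt s]
    exact hs.2
  · intro a _ c _ h
    omega
  · intro m hm
    rw [mem_filter, mem_Ioc] at hm
    refine ⟨m - N, ?_, by omega⟩
    rw [mem_filter, mem_Ioc]
    refine ⟨by omega, ?_⟩
    rw [hcnt, show N + (m - N) = m by omega]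
    exact hm.2

end Pool.Agent.Helper478.Poisson
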