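import Pool.Agent.Helper478_Poisson.Bonf

/-!
# Factorial moments of the number of occurrences of a word without self-overlap
-/

set_option autoImplicit false

namespace Pool.Agent.Helper478.Poisson

open Finset Filter Topology

/-- the points of `I` are at distances at least `l` -/
def Sep (l : ℕ) (I : Finset ℕ) : Prop := ∀ p ∈ I, ∀ p' ∈ I, p < p' → p + l ≤ p'

/-- the word `w` of length `l` stands at the place `p` of `x` -/
def At (l : ℕ) (w x : ℕ → ℕ) (p : ℕ) : Prop := ∀ t < l, x (p + t) = w t

/-- the word `w` of length `l` has no self-overlap -/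
def NoOv (l : ℕ) (w : ℕ → ℕ) : Prop := ∀ i, 0 < i → i < l → ∃ t, i + t < l ∧ w (i + t) ≠ w t

open Classical in
lemma nonsep_card (n l k : ℕ) :
    (((powersetCard k (Icc 1 n)).filter fun I => ¬ Sep l I).card : ℝ) * n ≤ l * (n : ℝ) ^ k := by
  rcases Nat.lt_or_ge k 2 with hk | hk
  · have : (powersetCard k (Icc 1 n)).filter (fun I => ¬ Sep l I) = ∅ := by
      rw [filter_eq_empty_iff]
      intro I hI
      rw [mem_powersetCard] at hI
      simp only [not_not]
      intro p hp p' hp' hlt
      exfalso
      have h1 : ({p, p'} : Finset ℕ) ⊆ I := by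
        intro q hq
        rw [mem_insert, mem_singleton] at hq
        rcases hq with rfl | rfl <;> assumption
      have h2 := card_le_card h1
      rw [card_pair (by omega)] at h2
      omega
    rw [this, card_empty]
    simp only [Nat.cast_zero, zero_mul]
    positivity
  · have hsub : (powersetCard k (Icc 1 n)).filter (fun I => ¬ Sep l I) ⊆
        (Icc 1 n).biUnion fun p => (range l).biUnion fun i =>
          (powersetCard k (Icc 1 n)).filter fun I => p ∈ I ∧ p + i ∈ I ∧ 0 < i := by
      intro I hI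
      rw [mem_filter] at hI
      obtain ⟨h1, h2⟩ := hI
      unfold Sep at h2
      push Not at h2
      obtain ⟨p, hp, p', hp', hlt, hclose⟩ := h2
      rw [mem_biUnion]
      refine ⟨p, (mem_powersetCard.1 h1).1 hp, ?_⟩
      rw [mem_biUnion]
      refine ⟨p' - p, by rw [mem_range]; omega, ?_⟩
      rw [mem_filter]
      refine ⟨h1, hp, ?_, by omega⟩
      rwa [show p + (p' - p) = p' by omega]
    have hone : ∀ p ∈ Icc 1 n, ∀ i ∈ range l, ((powersetCard k (Icc 1 n)).filter fun I =>
        p ∈ I ∧ p + i ∈ I ∧ 0 < i).card ≤ n ^ (k - 2) := by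
      intro p _ i _
      have h1 : ((powersetCard k (Icc 1 n)).filter fun I => p ∈ I ∧ p + i ∈ I ∧ 0 < i).card ≤
          (powersetCard (k - 2) (Icc 1 n)).card := by
        refine card_le_card_of_injOn (fun I => (I.erase p).erase (p + i)) ?_ ?_
        · intro I hI
          rw [Finset.mem_coe, mem_filter, mem_powersetCard] at hI
          obtain ⟨⟨h1, h2⟩, h3, h4, h5⟩ := hI
          rw [Finset.mem_coe, mem_powersetCard]
          refine ⟨fun q hq => h1 (mem_of_mem_erase (mem_of_mem_erase hq)), ?_⟩
          rw [card_erase_of_mem (mem_erase.2 ⟨by omega, h4⟩), card_erase_of_mem h3]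
          omega
        · intro I hI I' hI' heq
          rw [Finset.mem_coe, mem_filter] at hI hI'
          have h1 : insert p (insert (p + i) ((I.erase p).erase (p + i))) = I := by
            ext q
            simp only [mem_insert, mem_erase]
            constructor
            · rintro (rfl | rfl | ⟨_, _, h⟩)
              · exact hI.2.1
              · exact hI.2.2.1
              · exact h
            · intro h
              by_cases h1 : q = p
              · exact Or.inl h1
              · by_cases h2 : q = p + i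
                · exact Or.inr (Or.inl h2)
                · exact Or.inr (Or.inr ⟨h2, h1, h⟩)
          have h2 : insert p (insert (p + i) ((I'.erase p).erase (p + i))) = I' := by
            ext q
            simp only [mem_insert, mem_erase]
            constructor
            · rintro (rfl | rfl | ⟨_, _, h⟩)
              · exact hI'.2.1
              · exact hI'.2.2.1
              · exact h
            · intro h
              by_cases h1 : q = p
              · exact Or.inl h1
              · by_cases h2 : q = p + i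
                · exact Or.inr (Or.inl h2)
                · exact Or.inr (Or.inr ⟨h2, h1, h⟩)
          simp only at heq
          rw [← h1, ← h2, heq]
      rw [card_powersetCard, Nat.card_Icc, Nat.add_sub_cancel] at h1
      exact h1.trans (Nat.choose_le_pow n (k - 2))
    have hcard : ((powersetCard k (Icc 1 n)).filter fun I => ¬ Sep l I).card ≤ n * (l * n ^ (k - 2)) := by
      refine (card_le_card hsub).trans (card_biUnion_le.trans ?_)
      refine (sum_le_sum fun p hp => card_biUnion_le.trans (sum_le_sum fun i hi => hone p hp i hi)).trans ?_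
      simp
    have hcard' : (((powersetCard k (Icc 1 n)).filter fun I => ¬ Sep l I).card : ℝ) ≤
        n * (l * (n : ℝ) ^ (k - 2)) := by exact_mod_cast hcard
    calc (((powersetCard k (Icc 1 n)).filter fun I => ¬ Sep l I).card : ℝ) * n ≤
          n * (l * (n : ℝ) ^ (k - 2)) * n := by gcongr
      _ = l * ((n : ℝ) ^ (k - 2) * n ^ 2) := by ring
      _ = l * (n : ℝ) ^ k := by rw [← pow_add, show k - 2 + 2 = k by omega]

/-- the binomial moment as a sum over sets of places -/
lemma choose_sum (S : Finset ℕ) (n k : ℕ) (A : ℕ → ℕ → Prop) [∀ s, DecidablePred (A s)] :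
    ∑ s ∈ S, ((((Icc 1 n).filter fun p => A s p).card.choose k : ℕ) : ℝ) =
      ∑ I ∈ powersetCard k (Icc 1 n), ((S.filter fun s => ∀ p ∈ I, A s p).card : ℝ) := by
  classical
  have h1 : ∀ s ∈ S, ((((Icc 1 n).filter fun p => A s p).card.choose k : ℕ) : ℝ) =
      ∑ I ∈ powersetCard k (Icc 1 n), if (∀ p ∈ I, A s p) then (1 : ℝ) else 0 := by
    intro s _
    rw [← card_powersetCard, ← sum_filter, sum_const, nsmul_eq_mul, mul_one]
    congr 2
    ext I
    rw [mem_powersetCard, mem_filter, mem_powersetCard]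
    constructor
    · rintro ⟨h1, h2⟩
      exact ⟨⟨fun p hp => (mem_filter.1 (h1 hp)).1, h2⟩, fun p hp => (mem_filter.1 (h1 hp)).2⟩
    · rintro ⟨⟨h1, h2⟩, h3⟩
      exact ⟨fun p hp => mem_filter.2 ⟨h1 hp, h3 p hp⟩, h2⟩
  rw [sum_congr rfl h1, sum_comm]
  refine sum_congr rfl fun I _ => ?_
  rw [Finset.card_filter]
  push_cast
  rfl

/-- the places covered by the words -/
def cover (l : ℕ) (I : Finset ℕ) : Finset ℕ := I.biUnion fun p => (range l).image fun t => p + t

lemma cover_card (l : ℕ) (I : Finset ℕ) (hI : Sep l I) : (cover l I).card = I.card * l := by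
  unfold cover
  rw [card_biUnion]
  · have : ∀ p ∈ I, ((range l).image fun t => p + t).card = l := by
      intro p _
      rw [card_image_of_injective _ (fun a b h => by simpa using h), card_range]
    rw [sum_congr rfl this, sum_const, smul_eq_mul]
  · intro p hp p' hp' hne
    rw [Function.onFun, Finset.disjoint_left]
    intro q hq hq'
    rw [mem_image] at hq hq'
    obtain ⟨t, ht, rfl⟩ := hq
    obtain ⟨t', ht', h⟩ := hq'
    rw [mem_range] at ht ht'
    rcases lt_or_gt_of_ne hne with h1 | h1
    · have := hI p hp p' hp' h1; omega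
    · have := hI p' hp' p hp h1; omega

/-- the pattern prescribed by the words -/
def pat (w : ℕ → ℕ) (I : Finset ℕ) (q : ℕ) : ℕ := w (q - (I.filter (· ≤ q)).sup id)

lemma pat_eq (l : ℕ) (w : ℕ → ℕ) (I : Finset ℕ) (hI : Sep l I) (p : ℕ) (hp : p ∈ I) (t : ℕ) (ht : t < l) :
    pat w I (p + t) = w t := by
  unfold pat
  have : (I.filter (· ≤ p + t)).sup id = p := by
    apply le_antisymm
    · apply Finset.sup_le
      intro q hq
      rw [mem_filter] at hq
      simp only [id]
      by_contra hcon
      push Not at hcon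
      have := hI p hp q hq.1 hcon
      omega
    · exact Finset.le_sup (f := id) (mem_filter.2 ⟨hp, by omega⟩)
  rw [this]
  congr 1
  omega

open Classical in
/-- the factorial moments -/
lemma moment (S : Finset ℕ) (X : ℕ → ℕ → ℕ) (b n l k : ℕ) (w : ℕ → ℕ)
    (hw : ∀ t, t < l → w t < b) (hov : NoOv l w) (Err : ℝ)
    (hpat : ∀ I : Finset ℕ, I ⊆ Icc 1 (n + l) → I.card ≤ k * l → ∀ v : ℕ → ℕ, (∀ i ∈ I, v i < b) →
      |((S.filter fun s => ∀ i ∈ I, X s i = v i).card : ℝ) - S.card / (b : ℝ) ^ I.card| ≤ Err) :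
    |∑ s ∈ S, ((((Icc 1 n).filter fun p => At l w (X s) p).card.choose k : ℕ) : ℝ) -
      S.card * (((powersetCard k (Icc 1 n)).filter fun I => Sep l I).card / ((b : ℝ) ^ l) ^ k)| ≤
      (n : ℝ) ^ k * Err := by
  rw [choose_sum, ← sum_filter_add_sum_filter_not (powersetCard k (Icc 1 n)) (fun I => Sep l I)]
  have hzero : ∑ I ∈ (powersetCard k (Icc 1 n)).filter (fun I => ¬ Sep l I),
      ((S.filter fun s => ∀ p ∈ I, At l w (X s) p).card : ℝ) = 0 := by
    refine sum_eq_zero fun I hI => ?_
    rw [mem_filter] at hI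
    obtain ⟨_, h2⟩ := hI
    unfold Sep at h2
    push Not at h2
    obtain ⟨p, hp, p', hp', hlt, hclose⟩ := h2
    rw [Nat.cast_eq_zero, card_eq_zero, filter_eq_empty_iff]
    intro s _ hs
    obtain ⟨t, ht, hne⟩ := hov (p' - p) (by omega) (by omega)
    apply hne
    have h3 := hs p hp (p' - p + t) ht
    have h4 := hs p' hp' t (by omega)
    rw [← h3, ← h4]
    congr 1
    omega
  rw [hzero, add_zero]
  have hsep : ∀ I ∈ (powersetCard k (Icc 1 n)).filter (fun I => Sep l I),
      |((S.filter fun s => ∀ p ∈ I, At l w (X s) p).card : ℝ) - S.card / ((b : ℝ) ^ l) ^ k| ≤ Err := by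
    intro I hI
    rw [mem_filter, mem_powersetCard] at hI
    obtain ⟨⟨h1, h2⟩, h3⟩ := hI
    have h4 := hpat (cover l I) (by
      intro q hq
      unfold cover at hq
      rw [mem_biUnion] at hq
      obtain ⟨p, hp, hq⟩ := hq
      rw [mem_image] at hq
      obtain ⟨t, ht, rfl⟩ := hq
      rw [mem_range] at ht
      have := mem_Icc.1 (h1 hp)
      rw [mem_Icc]; omega) (by rw [cover_card l I h3, h2]) (pat w I) (by
      intro q hq
      unfold cover at hq
      rw [mem_biUnion] at hq
      obtain ⟨p, hp, hq⟩ := hq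
      rw [mem_image] at hq
      obtain ⟨t, ht, rfl⟩ := hq
      rw [mem_range] at ht
      rw [pat_eq l w I h3 p hp t ht]
      exact hw t ht)
    rw [cover_card l I h3, h2, mul_comm k l, pow_mul] at h4
    have h5 : (S.filter fun s => ∀ i ∈ cover l I, X s i = pat w I i) =
        S.filter fun s => ∀ p ∈ I, At l w (X s) p := by
      refine filter_congr fun s _ => ?_
      constructor
      · intro h p hp t ht
        rw [h (p + t) (by
          unfold cover
          rw [mem_biUnion]
          exact ⟨p, hp, mem_image.2 ⟨t, mem_range.2 ht, rfl⟩⟩)]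
        exact pat_eq l w I h3 p hp t ht
      · intro h q hq
        unfold cover at hq
        rw [mem_biUnion] at hq
        obtain ⟨p, hp, hq⟩ := hq
        rw [mem_image] at hq
        obtain ⟨t, ht, rfl⟩ := hq
        rw [mem_range] at ht
        rw [pat_eq l w I h3 p hp t ht]
        exact h p hp t ht
    rw [h5] at h4
    exact h4
  have hErr : 0 ≤ Err := by
    have h4 := hpat ∅ (by simp) (by simp) (fun _ => 0) (by simp)
    exact (abs_nonneg _).trans h4
  have h6 : (S.card : ℝ) * (((powersetCard k (Icc 1 n)).filter fun I => Sep l I).card / ((b : ℝ) ^ l) ^ k) =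
      ∑ I ∈ (powersetCard k (Icc 1 n)).filter (fun I => Sep l I), (S.card : ℝ) / ((b : ℝ) ^ l) ^ k := by
    rw [sum_const, nsmul_eq_mul]; ring
  rw [h6, ← sum_sub_distrib]
  refine (abs_sum_le_sum_abs _ _).trans ?_
  refine (sum_le_sum hsep).trans ?_
  rw [sum_const, nsmul_eq_mul]
  apply mul_le_mul_of_nonneg_right _ hErr
  have h7 : ((powersetCard k (Icc 1 n)).filter fun I => Sep l I).card ≤ n ^ k := by
    refine (card_filter_le _ _).trans ?_
    rw [card_powersetCard, Nat.card_Icc, Nat.add_sub_cancel]
    exact Nat.choose_le_pow n k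
  exact_mod_cast h7

open Classical in
/-- the number of separated sets -/
lemma sep_lim (n l : ℕ → ℕ) (hn : Tendsto n atTop atTop)
    (hl : Tendsto (fun N => (l N : ℝ) / n N) atTop (𝓝 0)) (k : ℕ) :
    Tendsto (fun N => (((powersetCard k (Icc 1 (n N))).filter fun I => Sep (l N) I).card : ℝ) /
      (n N : ℝ) ^ k) atTop (𝓝 (1 / k.factorial)) := by
  have hn' : Tendsto (fun N => (n N : ℝ)) atTop atTop := tendsto_natCast_atTop_atTop.comp hn
  have hk0 : (0 : ℝ) < k.factorial := by exact_mod_cast Nat.factorial_pos k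
  have hlow : Tendsto (fun N => (((n N + 1 - k : ℕ) : ℝ) / n N) ^ k / k.factorial - (l N : ℝ) / n N)
      atTop (𝓝 (1 / k.factorial)) := by
    have h1 : Tendsto (fun N => ((n N + 1 - k : ℕ) : ℝ) / n N) atTop (𝓝 1) := by
      have h2 : Tendsto (fun N => 1 - ((k : ℝ) - 1) / n N) atTop (𝓝 (1 - 0)) :=
        tendsto_const_nhds.sub (hn'.const_div_atTop _)
      rw [sub_zero] at h2
      refine h2.congr' ?_
      filter_upwards [hn.eventually_ge_atTop (k + 1)] with N hN
      have h3 : (0 : ℝ) < n N := by exact_mod_cast (by omega : 0 < n N)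
      rw [Nat.cast_sub (by omega)]
      push_cast
      field_simp
      ring
    have h4 := ((h1.pow k).div_const (k.factorial : ℝ)).sub hl
    rw [one_pow, sub_zero] at h4
    exact h4
  refine tendsto_of_tendsto_of_tendsto_of_le_of_le' hlow tendsto_const_nhds ?_ ?_
  · filter_upwards [hn.eventually_ge_atTop (k + 1)] with N hN
    have h3 : (0 : ℝ) < n N := by exact_mod_cast (by omega : 0 < n N)
    have h4 := nonsep_card (n N) (l N) k
    have h5 : (((powersetCard k (Icc 1 (n N))).filter fun I => Sep (l N) I).card : ℝ) +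
        (((powersetCard k (Icc 1 (n N))).filter fun I => ¬ Sep (l N) I).card : ℝ) = ((n N).choose k : ℝ) := by
      have := Finset.card_filter_add_card_filter_not (s := powersetCard k (Icc 1 (n N))) (fun I => Sep (l N) I)
      rw [card_powersetCard, Nat.card_Icc, Nat.add_sub_cancel] at this
      exact_mod_cast this
    have h6 : (((n N + 1 - k : ℕ) : ℝ)) ^ k / k.factorial ≤ ((n N).choose k : ℝ) := by
      have := Nat.pow_le_choose (α := ℝ) k (n N)
      exact_mod_cast this
    rw [div_pow, div_div, mul_comm ((n N : ℝ) ^ k), ← div_div, sub_le_iff_le_add, ← sub_le_iff_le_add',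
      ← sub_div]
    have h7 : (((powersetCard k (Icc 1 (n N))).filter fun I => ¬ Sep (l N) I).card : ℝ) / (n N : ℝ) ^ k ≤
        (l N : ℝ) / n N := by
      rw [div_le_div_iff₀ (by positivity) h3]
      exact h4
    have h8 : ((((n N + 1 - k : ℕ) : ℝ)) ^ k / k.factorial -
        (((powersetCard k (Icc 1 (n N))).filter fun I => Sep (l N) I).card : ℝ)) / (n N : ℝ) ^ k ≤
        (((powersetCard k (Icc 1 (n N))).filter fun I => ¬ Sep (l N) I).card : ℝ) / (n N : ℝ) ^ k := by
      gcongr
      linarith
    exact h8.trans h7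
  · filter_upwards [hn.eventually_ge_atTop 1] with N hN
    have h3 : (0 : ℝ) < n N := by exact_mod_cast (by omega : 0 < n N)
    have h4 : (((powersetCard k (Icc 1 (n N))).filter fun I => Sep (l N) I).card : ℝ) ≤ ((n N).choose k : ℝ) := by
      have h5 : ((powersetCard k (Icc 1 (n N))).filter fun I => Sep (l N) I).card ≤ (n N).choose k := by
        refine (card_filter_le _ _).trans ?_
        rw [card_powersetCard, Nat.card_Icc, Nat.add_sub_cancel]
      exact_mod_cast h5
    have h6 := Nat.choose_le_pow_div (α := ℝ) k (n N)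
    rw [div_le_div_iff₀ (by positivity) hk0, one_mul]
    calc _ ≤ ((n N : ℝ) ^ k / k.factorial) * k.factorial := by gcongr; exact h4.trans h6
      _ = (n N : ℝ) ^ k := by field_simp

open Classical in
/-- **Poisson law for a rare word without self-overlap**, abstract form -/
theorem pois_abs (S : ℕ → Finset ℕ) (hS : ∀ N, (S N).Nonempty) (X : ℕ → ℕ → ℕ → ℕ) (b : ℕ) (hb : 1 ≤ b)
    (n l : ℕ → ℕ) (w : ℕ → ℕ → ℕ) (hw : ∀ᶠ N in atTop, ∀ t, t < l N → w N t < b)
    (hov : ∀ᶠ N in atTop, NoOv (l N) (w N)) (hl1 : ∀ᶠ N in atTop, 1 ≤ l N) (Err : ℕ → ℝ)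
    (hpat : ∀ k : ℕ, ∀ᶠ N in atTop, ∀ I : Finset ℕ, I ⊆ Icc 1 (n N + l N) → I.card ≤ k * l N →
      ∀ v : ℕ → ℕ, (∀ i ∈ I, v i < b) →
      |(((S N).filter fun s => ∀ i ∈ I, X N s i = v i).card : ℝ) - (S N).card / (b : ℝ) ^ I.card| ≤ Err N)
    (hErr : ∀ k : ℕ, Tendsto (fun N => (n N : ℝ) ^ k * Err N / (S N).card) atTop (𝓝 0))
    (hn : Tendsto n atTop atTop) (hl : Tendsto (fun N => (l N : ℝ) / n N) atTop (𝓝 0)) (lam : ℝ)
    (hlam : Tendsto (fun N => (n N : ℝ) / (b : ℝ) ^ l N) atTop (𝓝 lam)) (j : ℕ) :
    Tendsto (fun N => (((S N).filter fun s =>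
      ((Icc 1 (n N)).filter fun p => At (l N) (w N) (X N s) p).card = j).card : ℝ) / (S N).card) atTop
      (𝓝 (Real.exp (-lam) * lam ^ j / j.factorial)) := by
  refine pois_of_moments S (fun N s => ((Icc 1 (n N)).filter fun p => At (l N) (w N) (X N s) p).card)
    lam (fun k => ?_) j
  have h1 : Tendsto (fun N => (((powersetCard k (Icc 1 (n N))).filter fun I => Sep (l N) I).card : ℝ) /
      (n N : ℝ) ^ k * ((n N : ℝ) / (b : ℝ) ^ l N) ^ k) atTop (𝓝 (1 / k.factorial * lam ^ k)) :=
    (sep_lim n l hn hl k).mul (hlam.pow k)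
  rw [show 1 / (k.factorial : ℝ) * lam ^ k = lam ^ k / k.factorial by ring] at h1
  have h2 : Tendsto (fun N => (∑ s ∈ S N, ((((Icc 1 (n N)).filter fun p =>
      At (l N) (w N) (X N s) p).card.choose k : ℕ) : ℝ)) / (S N).card -
      (((powersetCard k (Icc 1 (n N))).filter fun I => Sep (l N) I).card : ℝ) /
      (n N : ℝ) ^ k * ((n N : ℝ) / (b : ℝ) ^ l N) ^ k) atTop (𝓝 0) := by
    refine squeeze_zero_norm' ?_ (hErr k)
    filter_upwards [hw, hov, hl1, hpat k, hn.eventually_ge_atTop 1] with N e1 e2 e3 e4 e5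
    have hS0 : (0 : ℝ) < (S N).card := by exact_mod_cast (hS N).card_pos
    have hn0 : (0 : ℝ) < n N := by exact_mod_cast (by omega : 0 < n N)
    have h3 := moment (S N) (X N) b (n N) (l N) k (w N) e1 e2 (Err N) e4
    rw [Real.norm_eq_abs]
    have h4 : (((powersetCard k (Icc 1 (n N))).filter fun I => Sep (l N) I).card : ℝ) /
      (n N : ℝ) ^ k * ((n N : ℝ) / (b : ℝ) ^ l N) ^ k =
      ((S N).card * ((((powersetCard k (Icc 1 (n N))).filter fun I => Sep (l N) I).card : ℝ) /
        ((b : ℝ) ^ l N) ^ k)) / (S N).card := by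
      rw [div_pow]
      field_simp
    rw [h4, ← sub_div, abs_div, Nat.abs_cast]
    exact div_le_div_of_nonneg_right h3 hS0.le
  have := h2.add h1
  simpa using this

end Pool.Agent.Helper478.Poisson
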